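import Pool.Agent.Helper74.CA.Stmts

/-! Module EBL: linear algebra on the abelianization. -/

set_option autoImplicit false

namespace Pool.Agent.Helper74.CA

open Subgroup

theorem ebl_core (A : Type) [AddCommGroup A] (h3 : ∀ x : A, 3 • x = 0) (α τ : AddMonoid.End A)
    (n : ℕ) (w : A) (hα : α ^ n = 1) (hn : ¬ 3 ∣ n) (hc : τ * α = α * τ) (hτ : τ ^ 3 = 1)
    (hgen : AddSubgroup.closure {y | ∃ i j : ℕ, y = (τ ^ j) ((α ^ i) w)} = ⊤) :
    ∃ f : Fin 3 → A, (∀ i, α (f i) = - f i) ∧
      ∀ x, α x = -x → ∃ i j l : ℕ, x = i • f 0 + j • f 1 + l • f 2 := by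
  set π : AddMonoid.End A := ∑ i ∈ Finset.range (2 * n), (-α) ^ i with hπ
  have h2n : (-α) ^ (2 * n) = 1 := by
    rw [pow_mul, neg_sq, ← pow_mul, mul_comm, pow_mul, hα, one_pow]
  have hαπ : α * π = -π := by
    have h1 := mul_geom_sum (-α) (2 * n)
    rw [h2n, sub_self, ← hπ, sub_mul, one_mul, neg_mul, sub_eq_zero] at h1
    rw [← neg_neg (α * π), h1]
  have hcn : Commute τ (-α) := (show Commute τ α from hc).neg_right
  have hτπ : τ * π = π * τ := by
    rw [hπ]
    exact (Commute.sum_right _ _ _ (fun i _ => hcn.pow_right i)).eq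
  have hααπ : α * π = π * α := by
    rw [hπ]
    exact (Commute.sum_right _ _ _ (fun i _ => ((Commute.refl α).neg_right).pow_right i)).eq
  have e1 : ∀ v, α (π v) = -(π v) := by
    intro v
    have := congrArg (fun g : AddMonoid.End A => g v) hαπ
    exact this
  have e2 : ∀ v, τ (π v) = π (τ v) := by
    intro v
    exact congrArg (fun g : AddMonoid.End A => g v) hτπ
  have e3 : ∀ v, α (π v) = π (α v) := by
    intro v
    exact congrArg (fun g : AddMonoid.End A => g v) hααπ
  have e4 : ∀ v, τ (α v) = α (τ v) := by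
    intro v
    exact congrArg (fun g : AddMonoid.End A => g v) hc
  have e5 : ∀ v, τ (τ (τ v)) = v := by
    intro v
    have := congrArg (fun g : AddMonoid.End A => g v) hτ
    simpa [pow_succ] using this
  have hπv : ∀ v, α v = -v → π v = (2 * n) • v := by
    intro v hv
    have h1 : ∀ i : ℕ, ((-α) ^ i : AddMonoid.End A) v = v := by
      intro i
      induction i with
      | zero => rfl
      | succ i ih =>
        rw [pow_succ']
        change (-α) (((-α) ^ i : AddMonoid.End A) v) = v
        rw [ih]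
        change -(α v) = v
        rw [hv, neg_neg]
    have h2 : ∀ N : ℕ, (∑ i ∈ Finset.range N, (-α) ^ i : AddMonoid.End A) v = N • v := by
      intro N
      induction N with
      | zero => simp
      | succ N ih =>
        rw [Finset.sum_range_succ, add_smul, one_smul, ← ih, ← h1 N]
        conv_rhs => rw [h1 N]
        rw [h1 N]
        change (∑ i ∈ Finset.range N, (-α) ^ i : AddMonoid.End A) v +
          ((-α) ^ N : AddMonoid.End A) v = _
        rw [h1 N]
    exact h2 _
  let f : Fin 3 → A := ![π w, τ (π w), τ (τ (π w))]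
  have f0 : f 0 = π w := rfl
  have f1 : f 1 = τ (π w) := rfl
  have f2 : f 2 = τ (τ (π w)) := rfl
  have hαf : ∀ i, α (f i) = -f i := by
    intro i
    fin_cases i
    · exact e1 w
    · change α (τ (π w)) = -(τ (π w))
      rw [← e4, e1, map_neg]
    · change α (τ (τ (π w))) = -(τ (τ (π w)))
      rw [← e4, ← e4, e1, map_neg, map_neg]
  set S : AddSubgroup A := AddSubgroup.closure (Set.range f) with hS
  have hfS : ∀ i, f i ∈ S := fun i => AddSubgroup.subset_closure ⟨i, rfl⟩
  have hSα : ∀ x ∈ S, α x ∈ S := by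
    have : S ≤ S.comap α := by
      rw [hS, AddSubgroup.closure_le]
      rintro _ ⟨i, rfl⟩
      change α (f i) ∈ S
      rw [hαf]
      exact S.neg_mem (hfS i)
    exact this
  have hSτ : ∀ x ∈ S, τ x ∈ S := by
    have : S ≤ S.comap τ := by
      rw [hS, AddSubgroup.closure_le]
      rintro _ ⟨i, rfl⟩
      change τ (f i) ∈ S
      fin_cases i
      · exact hfS 1
      · exact hfS 2
      · change τ (τ (τ (π w))) ∈ S
        rw [e5]
        exact hfS 0
    exact this
  have hSπ : ∀ v, π v ∈ S := by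
    have h1 : (⊤ : AddSubgroup A) ≤ S.comap π := by
      rw [← hgen, AddSubgroup.closure_le]
      rintro _ ⟨i, j, rfl⟩
      change π ((τ ^ j) ((α ^ i) w)) ∈ S
      have ha : ∀ i : ℕ, π ((α ^ i) w) ∈ S := by
        intro i
        induction i with
        | zero => exact hfS 0
        | succ i ih =>
          rw [pow_succ']
          change π (α ((α ^ i) w)) ∈ S
          rw [← e3]
          exact hSα _ ih
      have hb : ∀ j : ℕ, π ((τ ^ j) ((α ^ i) w)) ∈ S := by
        intro j
        induction j with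
        | zero => exact ha i
        | succ j ih =>
          rw [pow_succ']
          change π (τ ((τ ^ j) ((α ^ i) w))) ∈ S
          rw [← e2]
          exact hSτ _ ih
      exact hb j
    intro v
    exact h1 (AddSubgroup.mem_top v)
  have hrep : ∀ x ∈ S, ∃ i j l : ℕ, x = i • f 0 + j • f 1 + l • f 2 := by
    intro x hx
    refine AddSubgroup.closure_induction (p := fun x _ => ∃ i j l : ℕ,
      x = i • f 0 + j • f 1 + l • f 2) ?_ ?_ ?_ ?_ hx
    · rintro _ ⟨i, rfl⟩
      fin_cases i
      · exact ⟨1, 0, 0, by simp⟩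
      · exact ⟨0, 1, 0, by simp⟩
      · exact ⟨0, 0, 1, by simp⟩
    · exact ⟨0, 0, 0, by simp⟩
    · rintro x y _ _ ⟨i, j, l, rfl⟩ ⟨i', j', l', rfl⟩
      refine ⟨i + i', j + j', l + l', ?_⟩
      simp only [add_smul]
      abel
    · rintro x _ ⟨i, j, l, rfl⟩
      refine ⟨2 * i, 2 * j, 2 * l, ?_⟩
      have g : ∀ (m : ℕ) (y : A), -(m • y) = (2 * m) • y := by
        intro m y
        have h4 := h3 (m • y)
        have h5 : m • y + 2 • (m • y) = 3 • (m • y) := by
          rw [show (3 : ℕ) = 1 + 2 from rfl, add_smul, one_smul]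
        rw [neg_eq_iff_add_eq_zero, mul_smul, h5, h4]
      rw [neg_add, neg_add, g, g, g]
  refine ⟨f, hαf, ?_⟩
  intro x hx
  have h1 : (2 * n) • x ∈ S := by
    rw [← hπv x hx]
    exact hSπ x
  apply hrep
  have h3k : ∀ k : ℕ, (3 * k) • x = 0 := by
    intro k
    rw [mul_comm, mul_smul, h3, smul_zero]
  have hn' : n % 3 = 1 ∨ n % 3 = 2 := by omega
  rcases hn' with h | h
  · have h4 : (2 * n) • x = 2 • x := by
      obtain ⟨k, hk⟩ : ∃ k, 2 * n = 3 * k + 2 := ⟨2 * n / 3, by omega⟩
      rw [hk, add_smul, h3k, zero_add]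
    rw [h4] at h1
    have h5 : x = -(2 • x) := by
      have h6 : x + 2 • x = 3 • x := by
        rw [show (3 : ℕ) = 1 + 2 from rfl, add_smul, one_smul]
      rw [eq_neg_iff_add_eq_zero, h6, h3]
    rw [h5]
    exact S.neg_mem h1
  · have h4 : (2 * n) • x = x := by
      obtain ⟨k, hk⟩ : ∃ k, 2 * n = 3 * k + 1 := ⟨2 * n / 3, by omega⟩
      rw [hk, add_smul, h3k, zero_add, one_smul]
    rwa [h4] at h1

theorem st_EBL : ST_EBL := by
  intro K _ a t n w han hn hcube hta httt hgen
  have hgm : gm K 2 = commutator K := top_lowerCentralSeries_one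
  rw [hgm] at hcube hta httt hgen
  let A := Additive (Abelianization K)
  let q : K →* Abelianization K := Abelianization.of
  have hq : ∀ x : K, q x = 1 ↔ x ∈ commutator K := by
    intro x
    rw [← Abelianization.ker_of K, MonoidHom.mem_ker]
  let α : AddMonoid.End A := MonoidHom.toAdditive (Abelianization.map a.toMonoidHom)
  let τ : AddMonoid.End A := MonoidHom.toAdditive (Abelianization.map t.toMonoidHom)
  let j : K → A := fun x => Additive.ofMul (q x)
  have jα : ∀ x, α (j x) = j (a x) := fun x => rfl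
  have jτ : ∀ x, τ (j x) = j (t x) := fun x => rfl
  have jsurj : ∀ v : A, ∃ x, j x = v := by
    intro v
    obtain ⟨x, hx⟩ := QuotientGroup.mk_surjective (Additive.toMul v)
    exact ⟨x, hx⟩
  have jmul : ∀ x y, j (x * y) = j x + j y := fun x y => rfl
  have jinv : ∀ x, j x⁻¹ = -j x := fun x => rfl
  have j0 : ∀ x, j x = 0 ↔ x ∈ commutator K := fun x => hq x
  have jpow : ∀ x (m : ℕ), j (x ^ m) = m • j x := fun x m => rfl
  have hjpa : ∀ (i : ℕ) (x : K), (α ^ i) (j x) = j ((a ^ i) x) := by
    intro i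
    induction i with
    | zero => intro x; rfl
    | succ i ih =>
      intro x
      rw [pow_succ, pow_succ]
      change (α ^ i) (α (j x)) = j ((a ^ i) (a x))
      rw [jα, ih]
  have hjpt : ∀ (i : ℕ) (x : K), (τ ^ i) (j x) = j ((t ^ i) x) := by
    intro i
    induction i with
    | zero => intro x; rfl
    | succ i ih =>
      intro x
      rw [pow_succ, pow_succ]
      change (τ ^ i) (τ (j x)) = j ((t ^ i) (t x))
      rw [jτ, ih]
  have h3 : ∀ x : A, 3 • x = 0 := by
    intro v
    obtain ⟨x, rfl⟩ := jsurj v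
    rw [← jpow, j0]
    exact hcube x
  have hα : α ^ n = 1 := by
    ext v
    obtain ⟨x, rfl⟩ := jsurj v
    rw [hjpa, han]
    rfl
  have hc : τ * α = α * τ := by
    ext v
    obtain ⟨x, rfl⟩ := jsurj v
    change τ (α (j x)) = α (τ (j x))
    rw [jα, jτ, jτ, jα, ← sub_eq_zero, sub_eq_add_neg, ← jinv, ← jmul, j0]
    exact hta x
  have hτ : τ ^ 3 = 1 := by
    ext v
    obtain ⟨x, rfl⟩ := jsurj v
    rw [hjpt]
    change j ((t ^ 3) x) = j x
    rw [← sub_eq_zero, sub_eq_add_neg, ← jinv, ← jmul, j0]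
    exact httt x
  have hgen' : AddSubgroup.closure {y | ∃ i j' : ℕ, y = (τ ^ j') ((α ^ i) (j w))} = ⊤ := by
    rw [eq_top_iff]
    intro v _
    obtain ⟨x, rfl⟩ := jsurj v
    set T := AddSubgroup.closure {y | ∃ i j' : ℕ, y = (τ ^ j') ((α ^ i) (j w))} with hT
    have h1 : closure {y | ∃ i j : ℕ, y = (t ^ j) ((a ^ i) w)} ⊔ commutator K ≤
        (AddSubgroup.toSubgroup' T).comap q := by
      apply sup_le
      · rw [closure_le]
        rintro _ ⟨i, j', rfl⟩
        change j ((t ^ j') ((a ^ i) w)) ∈ T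
        apply AddSubgroup.subset_closure
        exact ⟨i, j', by rw [hjpa, hjpt]⟩
      · intro y hy
        change j y ∈ T
        rw [(j0 y).2 hy]
        exact T.zero_mem
    rw [hgen] at h1
    exact h1 (Subgroup.mem_top x)
  obtain ⟨f, hf1, hf2⟩ := ebl_core A h3 α τ n (j w) hα hn hc hτ hgen'
  choose e he using fun i => jsurj (f i)
  refine ⟨e, ⟨?_, ?_⟩⟩
  · intro i
    rw [hgm, ← j0, jmul, ← jα, he, hf1, neg_add_cancel]
  · intro x hx
    rw [hgm, ← j0, jmul, ← jα] at hx
    obtain ⟨i, j', l, h⟩ := hf2 (j x) (eq_neg_of_add_eq_zero_left hx)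
    refine ⟨i, j', l, ?_⟩
    rw [hgm, ← j0, jmul, jinv, jmul, jmul, jpow, jpow, jpow, he, he, he, h, neg_add_cancel]

end Pool.Agent.Helper74.CA
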